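import Pool.Agent.Run7.h258.SL.Defs

/-!
# Automorphisms of modules carried by idempotents

`R` is an arbitrary ring, `V` an `R`-module, `p` an idempotent endomorphism of `V`. An automorphism of
`V` is carried by `p` if it commutes with `p` and is the identity on the kernel of `p`.
-/

set_option autoImplicit false

namespace Run7.h258.SL

variable {R V L : Type} [Ring R] [AddCommGroup V] [Module R V] [AddCommGroup L] [Module R L]

theorem mem_car {p : V →ₗ[R] V} {x : V ≃ₗ[R] V} :
    x ∈ Car p ↔ (∀ v, x (p v) = p (x v)) ∧ ∀ v, x (v - p v) = v - p v := Iff.rfl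

/-- the embedding of the group `Car p` in the automorphism group of a module `L` through which `p`
factors -/
def emb (p : V →ₗ[R] V) (S : V →ₗ[R] L) (T : L →ₗ[R] V) (hTS : ∀ v, T (S v) = p v)
    (hT : ∀ l, p (T l) = T l) : Car p →* (L ≃ₗ[R] L) where
  toFun x :=
    { toFun := fun l => S (x.1 (T l)) + (l - S (T l))
      map_add' := by
        intro a b
        simp only [map_add]
        abel
      map_smul' := by
        intro c a
        simp only [map_smul, RingHom.id_apply, smul_add, smul_sub]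
      invFun := fun l => S (x.1.symm (T l)) + (l - S (T l))
      left_inv := by
        intro l
        have e1 : T (S (x.1 (T l)) + (l - S (T l))) = x.1 (T l) := by
          rw [map_add, map_sub, hTS, hTS, hT, sub_self, add_zero, ← x.2.1, hT]
        have e2 : S (T (S (x.1 (T l)) + (l - S (T l)))) = S (x.1 (T l)) := by rw [e1]
        show S (x.1.symm (T (S (x.1 (T l)) + (l - S (T l))))) +
          (S (x.1 (T l)) + (l - S (T l)) - S (T (S (x.1 (T l)) + (l - S (T l))))) = l
        rw [e2, e1, LinearEquiv.symm_apply_apply]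
        abel
      right_inv := by
        intro l
        have hx : ∀ v, x.1.symm (p v) = p (x.1.symm v) := by
          intro v
          rw [LinearEquiv.symm_apply_eq, x.2.1, LinearEquiv.apply_symm_apply]
        have e1 : T (S (x.1.symm (T l)) + (l - S (T l))) = x.1.symm (T l) := by
          rw [map_add, map_sub, hTS, hTS, hT, sub_self, add_zero, ← hx, hT]
        have e2 : S (T (S (x.1.symm (T l)) + (l - S (T l)))) = S (x.1.symm (T l)) := by rw [e1]
        show S (x.1 (T (S (x.1.symm (T l)) + (l - S (T l))))) +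
          (S (x.1.symm (T l)) + (l - S (T l)) - S (T (S (x.1.symm (T l)) + (l - S (T l))))) = l
        rw [e2, e1, LinearEquiv.apply_symm_apply]
        abel }
  map_one' := by
    apply LinearEquiv.ext
    intro l
    show S (T l) + (l - S (T l)) = l
    abel
  map_mul' := by
    intro x y
    apply LinearEquiv.ext
    intro l
    have e1 : T (S (y.1 (T l)) + (l - S (T l))) = y.1 (T l) := by
      rw [map_add, map_sub, hTS, hTS, hT, sub_self, add_zero, ← y.2.1, hT]
    have e2 : S (T (S (y.1 (T l)) + (l - S (T l)))) = S (y.1 (T l)) := by rw [e1]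
    show S (x.1 (y.1 (T l))) + (l - S (T l)) =
      S (x.1 (T (S (y.1 (T l)) + (l - S (T l))))) +
        (S (y.1 (T l)) + (l - S (T l)) - S (T (S (y.1 (T l)) + (l - S (T l)))))
    rw [e2, e1]
    abel

theorem emb_injective (p : V →ₗ[R] V) (S : V →ₗ[R] L) (T : L →ₗ[R] V) (hTS : ∀ v, T (S v) = p v)
    (hT : ∀ l, p (T l) = T l) :
    Function.Injective (emb p S T hTS hT) := by
  rw [injective_iff_map_eq_one]
  intro x hx
  have h1 : ∀ l, S (x.1 (T l)) + (l - S (T l)) = l := fun l =>
    congrArg (fun f : L ≃ₗ[R] L => f l) hx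
  apply Subtype.ext
  apply LinearEquiv.ext
  intro v
  show x.1 v = v
  have h2 : S (x.1 (T (S v))) = S (T (S v)) := by
    have := h1 (S v)
    rw [← sub_eq_zero] at this ⊢
    rw [← this]
    abel
  have h3 := congrArg T h2
  rw [hTS, hTS, hTS, x.2.1] at h3
  have h4 : x.1 (v - p v) = v - p v := x.2.2 v
  have hpp : ∀ w, p (p w) = p w := by
    intro w
    have := hT (S w)
    rwa [hTS] at this
  rw [hpp, hpp, ← x.2.1] at h3
  rw [map_sub, h3] at h4
  have := sub_left_injective h4
  exact this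

section Twist

variable (p q : V →ₗ[R] V) (γ : V ≃ₗ[R] V)

/-- the first half of the realization of `γ` -/
def HH : (V × V) →ₗ[R] (V × V) where
  toFun x := (γ (p x.1) + (p x.2 + (q x.1 - p x.1) - γ (p (γ.symm (p x.2 + (q x.1 - p x.1))))),
    p (γ.symm (p x.2 + (q x.1 - p x.1))))
  map_add' := by
    intro a b
    ext
    · simp only [Prod.fst_add, Prod.snd_add, map_add, map_sub]
      abel
    · simp only [Prod.fst_add, Prod.snd_add, map_add, map_sub]
      abel
  map_smul' := by
    intro c a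
    ext
    · simp only [Prod.smul_fst, Prod.smul_snd, map_add, map_sub, map_smul, RingHom.id_apply,
        smul_add, smul_sub]
    · simp only [Prod.smul_fst, Prod.smul_snd, map_add, map_sub, map_smul, RingHom.id_apply,
        smul_add, smul_sub]

/-- the second half -/
def KK : (V × V) →ₗ[R] (V × V) where
  toFun x := (p (γ.symm (q x.1)) + (q x.1 - γ (p (γ.symm (q x.1))) + γ (p x.2) -
      p (q x.1 - γ (p (γ.symm (q x.1))) + γ (p x.2))),
    p (q x.1 - γ (p (γ.symm (q x.1))) + γ (p x.2)))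
  map_add' := by
    intro a b
    ext
    · simp only [Prod.fst_add, Prod.snd_add, map_add, map_sub]
      abel
    · simp only [Prod.fst_add, Prod.snd_add, map_add, map_sub]
      abel
  map_smul' := by
    intro c a
    ext
    · simp only [Prod.smul_fst, Prod.smul_snd, map_add, map_sub, map_smul, RingHom.id_apply,
        smul_add, smul_sub]
    · simp only [Prod.smul_fst, Prod.smul_snd, map_add, map_sub, map_smul, RingHom.id_apply,
        smul_add, smul_sub]

/-- the idempotent `(q, p)` of `V × V` -/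
def QQ : (V × V) →ₗ[R] (V × V) := LinearMap.prodMap q p

theorem QQ_apply (x : V × V) : QQ p q x = (q x.1, p x.2) := rfl

variable {p q γ}

/-- the conditions on `p`, `q`, `γ` -/
structure Cond (p q : V →ₗ[R] V) (γ : V ≃ₗ[R] V) : Prop where
  pp : ∀ v, p (p v) = p v
  qq : ∀ v, q (q v) = q v
  pq : ∀ v, p (q v) = p v
  qp : ∀ v, q (p v) = p v
  qg : ∀ v, q (γ (p v)) = γ (p v)

theorem QQ_HH (h : Cond p q γ) (x : V × V) : QQ p q (HH p q γ x) = HH p q γ x := by
  ext
  · show q (γ (p x.1) + (p x.2 + (q x.1 - p x.1) - γ (p (γ.symm (p x.2 + (q x.1 - p x.1)))))) =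
      γ (p x.1) + (p x.2 + (q x.1 - p x.1) - γ (p (γ.symm (p x.2 + (q x.1 - p x.1)))))
    simp only [map_add, map_sub, h.qg, h.qp, h.qq]
  · exact h.pp _

theorem QQ_KK (h : Cond p q γ) (x : V × V) : QQ p q (KK p q γ x) = KK p q γ x := by
  ext
  · show q (p (γ.symm (q x.1)) + (q x.1 - γ (p (γ.symm (q x.1))) + γ (p x.2) -
      p (q x.1 - γ (p (γ.symm (q x.1))) + γ (p x.2)))) =
      p (γ.symm (q x.1)) + (q x.1 - γ (p (γ.symm (q x.1))) + γ (p x.2) -
      p (q x.1 - γ (p (γ.symm (q x.1))) + γ (p x.2)))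
    simp only [map_add, map_sub, h.qg, h.qp, h.qq]
  · exact h.pp _

theorem QQ_QQ (h : Cond p q γ) (x : V × V) : QQ p q (QQ p q x) = QQ p q x := by
  ext
  · exact h.qq _
  · exact h.pp _

theorem HH_QQ (h : Cond p q γ) (x : V × V) : HH p q γ (QQ p q x) = HH p q γ x := by
  have e : ∀ y : V × V, HH p q γ y = (γ (p y.1) + (p y.2 + (q y.1 - p y.1) -
      γ (p (γ.symm (p y.2 + (q y.1 - p y.1))))), p (γ.symm (p y.2 + (q y.1 - p y.1)))) :=
    fun _ => rfl
  rw [e, e, QQ_apply]
  simp only [h.pq, h.pp, h.qq]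

theorem KK_QQ (h : Cond p q γ) (x : V × V) : KK p q γ (QQ p q x) = KK p q γ x := by
  have e : ∀ y : V × V, KK p q γ y = (p (γ.symm (q y.1)) + (q y.1 - γ (p (γ.symm (q y.1))) +
      γ (p y.2) - p (q y.1 - γ (p (γ.symm (q y.1))) + γ (p y.2))),
      p (q y.1 - γ (p (γ.symm (q y.1))) + γ (p y.2))) := fun _ => rfl
  rw [e, e, QQ_apply]
  simp only [h.pp, h.qq]

theorem KK_HH (h : Cond p q γ) (x : V × V) : KK p q γ (HH p q γ x) = QQ p q x := by
  obtain ⟨z, hz⟩ : ∃ z, z = p x.2 + (q x.1 - p x.1) := ⟨_, rfl⟩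
  obtain ⟨a, ha⟩ : ∃ a, a = γ (p x.1) + (z - γ (p (γ.symm z))) := ⟨_, rfl⟩
  have hH : HH p q γ x = (a, p (γ.symm z)) := by rw [ha, hz]; rfl
  have hqz : q z = z := by rw [hz]; simp only [map_add, map_sub, h.qp, h.qq]
  have hpz : p z = p x.2 := by
    rw [hz]; simp only [map_add, map_sub, h.pp, h.pq]; abel
  have hqa : q a = a := by rw [ha]; simp only [map_add, map_sub, h.qg, hqz]
  have h1 : p (γ.symm a) = p x.1 := by
    rw [ha]
    simp only [map_add, map_sub, LinearEquiv.symm_apply_apply, h.pp]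
    abel
  have h2 : a - γ (p (γ.symm a)) = z - γ (p (γ.symm z)) := by
    rw [h1, ha]; abel
  have h3 : KK p q γ (a, p (γ.symm z)) = (p (γ.symm (q a)) + (q a - γ (p (γ.symm (q a))) +
      γ (p (p (γ.symm z))) - p (q a - γ (p (γ.symm (q a))) + γ (p (p (γ.symm z))))),
      p (q a - γ (p (γ.symm (q a))) + γ (p (p (γ.symm z))))) := rfl
  rw [hH, h3, hqa, h2, h1, h.pp]
  have h4 : z - γ (p (γ.symm z)) + γ (p (γ.symm z)) = z := by abel
  rw [h4, hpz, QQ_apply, hz]
  ext
  · show p x.1 + (p x.2 + (q x.1 - p x.1) - p x.2) = q x.1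
    abel
  · rfl

theorem HH_KK (h : Cond p q γ) (x : V × V) : HH p q γ (KK p q γ x) = QQ p q x := by
  obtain ⟨a, ha⟩ : ∃ a, a = q x.1 := ⟨_, rfl⟩
  obtain ⟨b, hb⟩ : ∃ b, b = p x.2 := ⟨_, rfl⟩
  have hqa : q a = a := by rw [ha, h.qq]
  have hpb : p b = b := by rw [hb, h.pp]
  obtain ⟨u, hu⟩ : ∃ u, u = a - γ (p (γ.symm a)) + γ b := ⟨_, rfl⟩
  have hK : KK p q γ x = (p (γ.symm a) + (u - p u), p u) := by rw [hu, ha, hb]; rfl
  have hqu : q u = u := by
    have : q (γ b) = γ b := by rw [← hpb, h.qg]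
    rw [hu]; simp only [map_add, map_sub, h.qg, hqa, this]
  have h3 : HH p q γ (p (γ.symm a) + (u - p u), p u) =
      (γ (p (p (γ.symm a) + (u - p u))) + (p (p u) + (q (p (γ.symm a) + (u - p u)) -
      p (p (γ.symm a) + (u - p u))) - γ (p (γ.symm (p (p u) + (q (p (γ.symm a) + (u - p u)) -
      p (p (γ.symm a) + (u - p u))))))),
      p (γ.symm (p (p u) + (q (p (γ.symm a) + (u - p u)) - p (p (γ.symm a) + (u - p u)))))) := rfl
  have h4 : p (p (γ.symm a) + (u - p u)) = p (γ.symm a) := by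
    simp only [map_add, map_sub, h.pp]; abel
  have h5 : q (p (γ.symm a) + (u - p u)) = p (γ.symm a) + (u - p u) := by
    simp only [map_add, map_sub, h.qp, hqu]
  have h6 : p u + (p (γ.symm a) + (u - p u) - p (γ.symm a)) = u := by abel
  have h7 : p (γ.symm u) = b := by
    rw [hu]
    simp only [map_add, map_sub, LinearEquiv.symm_apply_apply, h.pp, hpb]
    abel
  rw [hK, h3, h4, h5, h.pp, h6, h7, QQ_apply, ← ha, ← hb]
  ext
  · show γ (p (γ.symm a)) + (u - γ b) = a
    rw [hu]; abel
  · rfl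

/-- the realization of `γ` -/
def tw (h : Cond p q γ) : (V × V) ≃ₗ[R] (V × V) where
  toFun x := HH p q γ x + (x - QQ p q x)
  map_add' := by
    intro a b
    simp only [map_add]
    abel
  map_smul' := by
    intro c a
    simp only [map_smul, RingHom.id_apply, smul_add, smul_sub]
  invFun x := KK p q γ x + (x - QQ p q x)
  left_inv := by
    intro x
    show KK p q γ (HH p q γ x + (x - QQ p q x)) + (HH p q γ x + (x - QQ p q x) -
      QQ p q (HH p q γ x + (x - QQ p q x))) = x
    simp only [map_add, map_sub, KK_QQ h, KK_HH h, QQ_HH h, QQ_QQ h]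
    abel
  right_inv := by
    intro x
    show HH p q γ (KK p q γ x + (x - QQ p q x)) + (KK p q γ x + (x - QQ p q x) -
      QQ p q (KK p q γ x + (x - QQ p q x))) = x
    simp only [map_add, map_sub, HH_QQ h, HH_KK h, QQ_KK h, QQ_QQ h]
    abel

theorem tw_mem (h : Cond p q γ) : tw h ∈ Car (QQ p q) := by
  refine ⟨fun x => ?_, fun x => ?_⟩
  · show HH p q γ (QQ p q x) + (QQ p q x - QQ p q (QQ p q x)) =
      QQ p q (HH p q γ x + (x - QQ p q x))
    simp only [map_add, map_sub, HH_QQ h, QQ_HH h, QQ_QQ h]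
  · show HH p q γ (x - QQ p q x) + (x - QQ p q x - QQ p q (x - QQ p q x)) = x - QQ p q x
    simp only [map_sub, HH_QQ h, QQ_QQ h]
    abel

/-- `x` acting on the first factor -/
def fst (x : V ≃ₗ[R] V) : (V × V) ≃ₗ[R] (V × V) := LinearEquiv.prodCongr x (LinearEquiv.refl R V)

theorem fst_apply (x : V ≃ₗ[R] V) (y : V × V) : fst x y = (x y.1, y.2) := rfl

theorem fst_mem {x : V ≃ₗ[R] V} (hx : x ∈ Car q) : fst x ∈ Car (QQ p q) := by
  refine ⟨fun y => ?_, fun y => ?_⟩
  · ext
    · exact hx.1 _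
    · rfl
  · ext
    · exact hx.2 _
    · rfl

/-- the intertwining relation -/
theorem tw_fst (h : Cond p q γ) {x x' : V ≃ₗ[R] V} (hx : x ∈ Car p) (hx' : x' ∈ Car q)
    (hg : ∀ v, x' (γ v) = γ (x v)) (y : V × V) : tw h (fst x y) = fst x' (tw h y) := by
  have hxq : ∀ v, x (q v) = q (x v) := by
    -- `x` commutes with `q`
    intro v
    have h1 : ∀ w, x w = p (x w) + (w - p w) := by
      intro w
      have := hx.2 w
      rw [map_sub, hx.1] at this
      rw [← this]; abel
    have e1 := h1 (q v)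
    have e2 := h1 v
    rw [← hx.1, h.pq, hx.1] at e1
    rw [e1]
    conv_rhs => rw [e2]
    rw [map_add, map_sub, h.qp, h.qp]
  have hx1 : ∀ v, x (v - q v) = v - q v := by
    intro v
    have h1 := hx.2 (v - q v)
    rw [map_sub p, h.pq, sub_self, sub_zero] at h1
    exact h1
  obtain ⟨v, s⟩ := y
  obtain ⟨z, hz⟩ : ∃ z, z = p s + (q v - p v) := ⟨_, rfl⟩
  have e0 : x (q v - p v) = q v - p v := by
    have := hx.2 (q v)
    rwa [h.pq] at this
  have e1 : q (x v) - p (x v) = q v - p v := by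
    rw [← hxq, ← hx.1, ← map_sub, e0]
  have e2 : tw h (fst x (v, s)) = (γ (p (x v)) + (z - γ (p (γ.symm z))) + (x v - q (x v)),
      p (γ.symm z) + (s - p s)) := by
    show ((γ (p (x v)) + (p s + (q (x v) - p (x v)) - γ (p (γ.symm (p s + (q (x v) - p (x v)))))),
      p (γ.symm (p s + (q (x v) - p (x v))))) : V × V) + ((x v, s) - (q (x v), p s)) = _
    rw [e1, ← hz]
    rfl
  have e3 : tw h (v, s) = (γ (p v) + (z - γ (p (γ.symm z))) + (v - q v),
      p (γ.symm z) + (s - p s)) := by
    show ((γ (p v) + (p s + (q v - p v) - γ (p (γ.symm (p s + (q v - p v))))),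
      p (γ.symm (p s + (q v - p v)))) : V × V) + ((v, s) - (q v, p s)) = _
    rw [← hz]
    rfl
  rw [e2, e3, fst_apply]
  have e4 : x v - q (x v) = v - q v := by rw [← hxq, ← map_sub, hx1]
  have e5 : x' (v - q v) = v - q v := hx'.2 v
  have e6 : x' (z - γ (p (γ.symm z))) = z - γ (p (γ.symm z)) := by
    have h1 : z - γ (p (γ.symm z)) = γ (γ.symm z - p (γ.symm z)) := by
      rw [map_sub, LinearEquiv.apply_symm_apply]
    rw [h1, hg, hx.2]
  ext
  · show γ (p (x v)) + (z - γ (p (γ.symm z))) + (x v - q (x v)) =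
      x' (γ (p v) + (z - γ (p (γ.symm z))) + (v - q v))
    rw [map_add, map_add, e5, e6, e4, hg, hx.1]
  · rfl

end Twist

end Run7.h258.SL
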