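import Mathlib

/-!
# Definitions: frames of modules and finitary automorphisms
-/

set_option autoImplicit false

namespace Run7.h258.SL

section

variable {R V : Type} [Ring R] [AddCommGroup V] [Module R V]

/-- The group of the automorphisms of `V` which commute with `p` and are the identity on `(1 - p) V`. -/
def Car (p : V →ₗ[R] V) : Subgroup (V ≃ₗ[R] V) where
  carrier := {x | (∀ v, x (p v) = p (x v)) ∧ ∀ v, x (v - p v) = v - p v}
  one_mem' := ⟨fun _ => rfl, fun _ => rfl⟩
  mul_mem' := by
    rintro a b ⟨ha, ha'⟩ ⟨hb, hb'⟩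
    refine ⟨fun v => ?_, fun v => ?_⟩
    · show a (b (p v)) = p (a (b v))
      rw [hb, ha]
    · show a (b (v - p v)) = v - p v
      rw [hb', ha']
  inv_mem' := by
    rintro a ⟨ha, ha'⟩
    refine ⟨fun v => ?_, fun v => ?_⟩
    · show a.symm (p v) = p (a.symm v)
      rw [LinearEquiv.symm_apply_eq, ha, LinearEquiv.apply_symm_apply]
    · show a.symm (v - p v) = v - p v
      rw [LinearEquiv.symm_apply_eq, ha']

/-- the order of idempotents -/
def Le (p r : V →ₗ[R] V) : Prop := ∀ v, r (p v) = p v ∧ p (r v) = p v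

/-- A frame of the module `V` is a nonempty set of idempotent endomorphisms with finitely generated
images which is directed and such that each vector is in one of the images. -/
structure Frame (PP : Set (V →ₗ[R] V)) : Prop where
  ne : PP.Nonempty
  idem : ∀ p ∈ PP, ∀ v, p (p v) = p v
  fg : ∀ p ∈ PP, (LinearMap.range p).FG
  dir : ∀ p ∈ PP, ∀ q ∈ PP, ∃ r ∈ PP, Le p r ∧ Le q r
  cover : ∀ v, ∃ p ∈ PP, p v = v

/-- the automorphisms carried by some member of the frame -/
def CarriedBy (PP : Set (V →ₗ[R] V)) (x : V ≃ₗ[R] V) : Prop := ∃ p ∈ PP, x ∈ Car p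

end

/-- `R` is left Noetherian, `T` is a finitely generated `R`-module and `T` is isomorphic to `R` or `R`
is commutative. -/
def Adm (R T : Type) [Ring R] [AddCommGroup T] [Module R T] : Prop :=
  IsNoetherianRing R ∧ Module.Finite R T ∧ (Nonempty (T ≃ₗ[R] R) ∨ ∀ a b : R, a * b = b * a)

/-- `V` is isomorphic to a direct summand of a direct sum of copies of `T`. -/
def SummandOf (R V T : Type) [Ring R] [AddCommGroup V] [Module R V] [AddCommGroup T]
    [Module R T] : Prop :=
  ∃ (X : Type) (s : V →ₗ[R] (X →₀ T)) (t : (X →₀ T) →ₗ[R] V), ∀ v, t (s v) = v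

/-- the automorphism group of the `R`-module `M` is in `C` -/
def AutIn (C : ∀ (G : Type) [Group G], Prop) (R M : Type) [Ring R] [AddCommGroup M]
    [Module R M] : Prop := C (M ≃ₗ[R] M)

/-- `(x - 1) V` is finitely generated. -/
def FGMove {R V : Type} [Ring R] [AddCommGroup V] [Module R V] (x : V ≃ₗ[R] V) : Prop :=
  (LinearMap.range ((x : V →ₗ[R] V) - LinearMap.id)).FG

/-- There is a module `T` such that `Adm R T`, `V` is a direct summand of a direct sum of copies of
`T`, the groups `Aut (T ^ d)` are in `C`, and `(x - 1) V` is finitely generated for all `x` in `A`. -/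
def FinitaryT (C : ∀ (G : Type) [Group G], Prop) (R V : Type) [Ring R] [AddCommGroup V]
    [Module R V] (A : Set (V ≃ₗ[R] V)) : Prop :=
  ∃ (T : Type) (_ : AddCommGroup T) (_ : Module R T), Adm R T ∧ SummandOf R V T ∧
    (∀ d : ℕ, AutIn C R (Fin d → T)) ∧ ∀ x ∈ A, FGMove x

/-- There is a frame `PP` of `V` such that the groups `Aut (p V × p V)` for `p` in `PP` are in `C`, and
all `x` in `A` are carried by members of `PP`. -/
def FinitaryF (C : ∀ (G : Type) [Group G], Prop) (R V : Type) [Ring R] [AddCommGroup V]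
    [Module R V] (A : Set (V ≃ₗ[R] V)) : Prop :=
  ∃ PP : Set (V →ₗ[R] V), Frame PP ∧
    (∀ p ∈ PP, AutIn C R (LinearMap.range p × LinearMap.range p)) ∧ ∀ x ∈ A, CarriedBy PP x

/-- The homomorphism `j` from the subgroup `N` of `G` to `P` is injective on the subgroup generated by
`E` and `g E g⁻¹` and satisfies `j (g n g⁻¹) = γ (j n) γ⁻¹` for `n` in `E`. -/
def ConjBy {G P : Type} [Group G] [Group P] (N : Subgroup G) (g : G) (E : Set G) (j : N →* P)
    (γ : P) : Prop :=
  (∀ n : N, (n : G) ∈ Subgroup.closure (E ∪ (fun x => g * x * g⁻¹) '' E) → j n = 1 → n = 1) ∧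
    ∀ n m : N, (n : G) ∈ E → (m : G) = g * n * g⁻¹ → j m = γ * j n * γ⁻¹

/-- the image of the elements of `E` and `g E g⁻¹` under `j` -/
def img {G P : Type} [Group G] [Group P] (N : Subgroup G) (g : G) (E : Set G) (j : N →* P) : Set P :=
  j '' {n : N | (n : G) ∈ E ∪ (fun x => g * x * g⁻¹) '' E}

/-- The conjugation by `g` on the finite subset `E` of the normal subgroup `N` is given by an
automorphism `γ` of a module `V` on which `N` acts, the action is faithful on the subgroup generated
by `E` and `g E g⁻¹`, and the elements of these two sets act in a finitary way. -/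
def LinearConj (C : ∀ (G : Type) [Group G], Prop) {G : Type} [Group G] (N : Subgroup G) (g : G)
    (E : Set G) : Prop :=
  ∃ (R V : Type) (_ : Ring R) (_ : AddCommGroup V) (_ : Module R V) (j : N →* (V ≃ₗ[R] V))
    (γ : V ≃ₗ[R] V), ConjBy N g E j γ ∧
      (FinitaryT C R V (img N g E j) ∨ FinitaryF C R V (img N g E j))

end Run7.h258.SL
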