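import Pool.Agent.Run7.h258.SL.Core
import Pool.Agent.R779.FJ.Col

/-!
# Frames and realized conjugations
-/

set_option autoImplicit false

namespace Run7.h258.SL

open Pool.Agent.Y110.FJ

variable {R V : Type} [Ring R] [AddCommGroup V] [Module R V]

theorem Le.trans {p q r : V →ₗ[R] V} (h : Le p q) (h' : Le q r) : Le p r := fun v =>
  ⟨by rw [← (h v).1, (h' _).1], by rw [← (h (r v)).2, (h' v).2, (h v).2]⟩

theorem car_mono {p r : V →ₗ[R] V} (h : Le p r) : Car p ≤ Car r := by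
  intro x hx
  have h1 : ∀ w, x w = p (x w) + (w - p w) := by
    intro w
    have := hx.2 w
    rw [map_sub, hx.1] at this
    rw [← this]; abel
  refine ⟨fun v => ?_, fun v => ?_⟩
  · have e1 := h1 (r v)
    have e2 := h1 v
    rw [← hx.1, (h v).2, hx.1] at e1
    rw [e1]
    conv_rhs => rw [e2]
    rw [map_add, map_sub, (h _).1, (h _).1]
  · have h1 := hx.2 (v - r v)
    rw [map_sub p, (h v).2, sub_self, sub_zero] at h1
    exact h1

variable {PP : Set (V →ₗ[R] V)}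

theorem Frame.bound (hF : Frame PP) {A : Set (V →ₗ[R] V)} (hA : A.Finite) (hAP : A ⊆ PP) :
    ∃ r ∈ PP, ∀ p ∈ A, Le p r := by
  induction A, hA using Set.Finite.induction_on with
  | empty =>
    obtain ⟨r, hr⟩ := hF.ne
    exact ⟨r, hr, fun p hp => absurd hp (Set.notMem_empty p)⟩
  | @insert a s _ _ ih =>
    obtain ⟨r, hr, hr'⟩ := ih fun x hx => hAP (Set.mem_insert_of_mem _ hx)
    obtain ⟨t, ht, h1, h2⟩ := hF.dir a (hAP (Set.mem_insert _ _)) r hr
    refine ⟨t, ht, fun p hp => ?_⟩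
    rcases hp with rfl | hp
    · exact h1
    · exact (hr' p hp).trans h2

theorem Frame.fix (hF : Frame PP) {F : Set V} (hFf : F.Finite) :
    ∃ r ∈ PP, ∀ v ∈ F, r v = v := by
  choose c hc hc' using hF.cover
  obtain ⟨r, hr, h⟩ := hF.bound (hFf.image c) (by rintro _ ⟨v, -, rfl⟩; exact hc v)
  refine ⟨r, hr, fun v hv => ?_⟩
  have := (h (c v) ⟨v, hv, rfl⟩ v).1
  rwa [hc'] at this

theorem Frame.carry (hF : Frame PP) {A : Set (V ≃ₗ[R] V)} (hA : A.Finite)
    (h : ∀ x ∈ A, CarriedBy PP x) : ∃ r ∈ PP, ∀ x ∈ A, x ∈ Car r := by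
  have : Finite A := hA
  choose c hc hc' using fun x : A => h x x.2
  obtain ⟨r, hr, h1⟩ := hF.bound (Set.finite_range c) (by rintro _ ⟨v, rfl⟩; exact hc v)
  exact ⟨r, hr, fun x hx => car_mono (h1 _ ⟨⟨x, hx⟩, rfl⟩) (hc' ⟨x, hx⟩)⟩

theorem realized {C : ∀ (G : Type) [Group G], Prop} {G : Type} [Group G]
    (N : Subgroup G) [hN : N.Normal] (g : G) (E : Set G) (hE : E.Finite) (hEN : E ⊆ N)
    (hF : Frame PP) (hC : ∀ p ∈ PP, ∀ q ∈ PP, C ↥(Car (QQ p q)))
    (j : N →* (V ≃ₗ[R] V)) (γ : V ≃ₗ[R] V)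
    (hj : ∀ n : N, (n : G) ∈ Subgroup.closure (E ∪ (fun x => g * x * g⁻¹) '' E) → j n = 1 → n = 1)
    (h1 : ∀ n : N, (n : G) ∈ E → CarriedBy PP (j n) ∧
      CarriedBy PP (j ⟨g * n * g⁻¹, hN.conj_mem n n.2 g⟩) ∧
      ∀ v, j ⟨g * n * g⁻¹, hN.conj_mem n n.2 g⟩ (γ v) = γ (j n v)) : Realized C g E := by
  classical
  have hEf : Finite E := hE
  -- the idempotent `p`
  obtain ⟨p, hp, hpE⟩ := hF.carry (A := Set.range fun x : E => j ⟨x, hEN x.2⟩)
    (Set.finite_range _) (by rintro _ ⟨x, rfl⟩; exact (h1 ⟨x, hEN x.2⟩ x.2).1)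
  have hp' : ∀ n : N, (n : G) ∈ E → j n ∈ Car p := fun n hn => hpE _ ⟨⟨n, hn⟩, rfl⟩
  -- the idempotent `q`
  obtain ⟨q₁, hq₁, hqE⟩ := hF.carry
    (A := Set.range fun x : E => j ⟨g * (x : G) * g⁻¹, hN.conj_mem _ (hEN x.2) g⟩)
    (Set.finite_range _) (by rintro _ ⟨x, rfl⟩; exact (h1 ⟨x, hEN x.2⟩ x.2).2.1)
  obtain ⟨F, hFf, hFspan⟩ := Submodule.fg_def.1 (hF.fg p hp)
  obtain ⟨q₂, hq₂, hqF⟩ := hF.fix (hFf.image γ)
  obtain ⟨q₃, hq₃, h13, h23⟩ := hF.dir q₁ hq₁ q₂ hq₂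
  obtain ⟨q, hq, h3, h4⟩ := hF.dir q₃ hq₃ p hp
  have hcond : Cond p q γ := by
    refine ⟨hF.idem p hp, hF.idem q hq, fun v => (h4 v).2, fun v => (h4 v).1, ?_⟩
    have h5 : LinearMap.range p ≤ LinearMap.ker (q ∘ₗ (γ : V →ₗ[R] V) - (γ : V →ₗ[R] V)) := by
      rw [← hFspan, Submodule.span_le]
      intro v hv
      show q (γ v) - γ v = 0
      have e1 := hqF (γ v) ⟨v, hv, rfl⟩
      have e2 : Le q₂ q := Le.trans h23 h3
      have e3 := (e2 (γ v)).1
      rw [e1] at e3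
      rw [e3, sub_self]
    intro v
    have h6 := h5 ⟨v, rfl⟩
    exact sub_eq_zero.1 h6
  have hq' : ∀ n : N, (n : G) ∈ (fun x => g * x * g⁻¹) '' E → j n ∈ Car q := by
    rintro n ⟨x, hx, hxn⟩
    have e1 : n = ⟨g * x * g⁻¹, hN.conj_mem _ (hEN hx) g⟩ := Subtype.ext hxn.symm
    rw [e1]
    exact car_mono (Le.trans h13 h3) (hqE _ ⟨⟨x, hx⟩, rfl⟩)
  have hclN : Subgroup.closure (E ∪ (fun x => g * x * g⁻¹) '' E) ≤ N := by
    rw [Subgroup.closure_le]
    rintro _ (hx | ⟨x, hx, rfl⟩)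
    · exact hEN hx
    · exact hN.conj_mem x (hEN hx) g
  have hcl : Subgroup.closure (E ∪ (fun x => g * x * g⁻¹) '' E) ≤
      ((Car q).comap j).map N.subtype := by
    rw [Subgroup.closure_le]
    rintro x hx
    rcases hx with hx | hx
    · exact ⟨⟨x, hEN hx⟩, car_mono h4 (hp' ⟨x, hEN hx⟩ hx), rfl⟩
    · obtain ⟨y, hy, rfl⟩ := hx
      exact ⟨⟨g * y * g⁻¹, hN.conj_mem y (hEN hy) g⟩, hq' _ ⟨y, hy, rfl⟩, rfl⟩
  have hmem : ∀ x : Subgroup.closure (E ∪ (fun x => g * x * g⁻¹) '' E),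
      j (Subgroup.inclusion hclN x) ∈ Car q := by
    intro x
    obtain ⟨n, hn, hnx⟩ := hcl x.2
    have e1 : Subgroup.inclusion hclN x = n := Subtype.ext hnx.symm
    rw [e1]
    exact hn
  let f : Subgroup.closure (E ∪ (fun x => g * x * g⁻¹) '' E) →* Car (QQ p q) :=
    { toFun := fun x => ⟨fst (j (Subgroup.inclusion hclN x)), fst_mem (hmem x)⟩
      map_one' := by
        apply Subtype.ext
        apply LinearEquiv.ext
        intro v
        show fst (j (Subgroup.inclusion hclN 1)) v = v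
        rw [map_one, map_one, fst_apply]
        rfl
      map_mul' := by
        intro x y
        apply Subtype.ext
        apply LinearEquiv.ext
        intro v
        show fst (j (Subgroup.inclusion hclN (x * y))) v =
          fst (j (Subgroup.inclusion hclN x)) (fst (j (Subgroup.inclusion hclN y)) v)
        rw [map_mul, map_mul]
        rfl }
  refine ⟨Car (QQ p q), inferInstance, f, ⟨tw hcond, tw_mem hcond⟩, hC p hp q hq, ?_, ?_⟩
  · rw [injective_iff_map_eq_one]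
    intro x hx
    have h5 : ∀ v : V × V, fst (j (Subgroup.inclusion hclN x)) v = v := fun v =>
      congrArg (fun y : Car (QQ p q) => y.1 v) hx
    have h6 : j (Subgroup.inclusion hclN x) = 1 := by
      apply LinearEquiv.ext
      intro v
      exact congrArg Prod.fst (h5 (v, 0))
    have h7 := hj _ x.2 h6
    have h8 := congrArg (fun n : N => (n : G)) h7
    exact Subtype.ext h8
  · intro x y hx hy
    rw [eq_mul_inv_iff_mul_eq]
    apply Subtype.ext
    apply LinearEquiv.ext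
    intro v
    show fst (j (Subgroup.inclusion hclN y)) (tw hcond v) =
      tw hcond (fst (j (Subgroup.inclusion hclN x)) v)
    have e1 : Subgroup.inclusion hclN x = ⟨x, hEN hx⟩ := rfl
    have e2 : Subgroup.inclusion hclN y = ⟨g * (⟨x, hEN hx⟩ : N) * g⁻¹, hN.conj_mem _ (hEN hx) g⟩ :=
      Subtype.ext hy
    rw [e1, e2]
    refine (tw_fst hcond (hp' _ hx) ?_ (h1 ⟨x, hEN hx⟩ hx).2.2 v).symm
    rw [← e2]
    exact hmem y

end Run7.h258.SL
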