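import Pool.Agent.Run7.h258.SL.Frame

/-!
# Frames of the direct sums of copies of a finitely generated module
-/

set_option autoImplicit false

namespace Run7.h258.SL

open Pool.Agent.Y110.FJ

/-- a family in a Noetherian module is spanned by finitely many members -/
theorem family {R M X : Type} [Ring R] [AddCommGroup M] [Module R M] [IsNoetherian R M] (y : X → M) :
    ∃ S : Finset X, ∀ x, ∃ c : X → R, ∑ s ∈ S, c s • y s = y x := by
  classical
  obtain ⟨N, ⟨S, rfl⟩, hmax⟩ := set_has_maximal_iff_noetherian.mpr (inferInstance : IsNoetherian R M)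
    (Set.range fun S : Finset X => Submodule.span R (y '' (S : Set X))) ⟨_, ⟨∅, rfl⟩⟩
  refine ⟨S, fun x => ?_⟩
  rw [← Submodule.mem_span_image_finset_iff_exists_fun']
  by_contra hx
  refine hmax (Submodule.span R (y '' ((insert x S : Finset X) : Set X))) ⟨_, rfl⟩ ?_
  refine lt_of_le_of_ne (Submodule.span_mono (Set.image_mono (by simp))) fun h => hx ?_
  have h' : Submodule.span R (y '' (S : Set X)) =
    Submodule.span R (y '' ((insert x S : Finset X) : Set X)) := h
  rw [h']
  exact Submodule.subset_span ⟨x, by simp, rfl⟩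

/-- homomorphisms from `T` to a finitely generated module factor through finitely many of them -/
theorem homs {R T : Type} [Ring R] [AddCommGroup T] [Module R T] (h : Adm R T)
    {Q X : Type} [AddCommGroup Q] [Module R Q] [Module.Finite R Q] (f : X → (T →ₗ[R] Q)) :
    ∃ S : Finset X, ∀ x, ∃ a : X → (T →ₗ[R] T), ∀ t, ∑ s ∈ S, f s (a s t) = f x t := by
  obtain ⟨hR, hT, ⟨⟨e⟩⟩ | hc⟩ := h
  · obtain ⟨S, hS⟩ := family (R := R) (fun x => f x (e.symm 1))
    refine ⟨S, fun x => ?_⟩
    obtain ⟨c, hc⟩ := hS x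
    have he : ∀ t, t = e t • e.symm 1 := by
      intro t
      apply e.injective
      rw [map_smul, LinearEquiv.apply_symm_apply, smul_eq_mul, mul_one]
    refine ⟨fun s =>
      { toFun := fun t => (e t * c s) • e.symm 1
        map_add' := by
          intro t t'
          rw [map_add, add_mul, add_smul]
        map_smul' := by
          intro r t
          rw [map_smul, smul_eq_mul, mul_assoc, mul_smul]
          rfl }, fun t => ?_⟩
    show ∑ s ∈ S, f s ((e t * c s) • e.symm 1) = f x t
    conv_rhs => rw [he t, map_smul, ← hc, Finset.smul_sum]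
    refine Finset.sum_congr rfl fun s _ => ?_
    rw [map_smul, mul_smul]
  · let cr : CommRing R := { (inferInstance : Ring R) with mul_comm := hc }
    obtain ⟨n, g, hg⟩ := Module.Finite.exists_fin' R T
    have hN : IsNoetherian R (T →ₗ[R] Q) := by
      let ev : (T →ₗ[R] Q) →ₗ[R] (Fin n → Q) :=
        { toFun := fun φ i => φ (g (Pi.single i 1))
          map_add' := fun _ _ => rfl
          map_smul' := fun _ _ => rfl }
      refine isNoetherian_of_injective ev ?_
      rw [injective_iff_map_eq_zero]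
      intro φ hφ
      have h1 : ∀ i, φ (g (Pi.single i 1)) = 0 := fun i => congrFun hφ i
      have h2 : φ ∘ₗ g = 0 := by
        apply LinearMap.pi_ext'
        intro i
        ext
        exact h1 i
      ext t
      obtain ⟨w, rfl⟩ := hg t
      exact LinearMap.congr_fun h2 w
    obtain ⟨S, hS⟩ := family (R := R) f
    refine ⟨S, fun x => ?_⟩
    obtain ⟨c, hc'⟩ := hS x
    refine ⟨fun s => c s • LinearMap.id, fun t => ?_⟩
    rw [← hc', LinearMap.sum_apply]
    refine Finset.sum_congr rfl fun s _ => ?_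
    rw [LinearMap.smul_apply, LinearMap.smul_apply, LinearMap.id_apply, map_smul]

variable (R V : Type) [Ring R] [AddCommGroup V] [Module R V]

/-- the idempotents with finitely generated images -/
def FGI : Set (V →ₗ[R] V) := {e | (∀ v, e (e v) = e v) ∧ (LinearMap.range e).FG}

variable {R V} {T X : Type} [AddCommGroup T] [Module R T]

/-- the restriction to a finite set -/
def res (S : Finset X) : (X →₀ T) →ₗ[R] (S → T) where
  toFun v := fun s => v s
  map_add' _ _ := rfl
  map_smul' _ _ := rfl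

/-- the inclusion -/
noncomputable def inc [DecidableEq X] (S : Finset X) : (S → T) →ₗ[R] (X →₀ T) :=
  LinearMap.lsum R (fun _ : S => T) ℕ fun s => Finsupp.lsingle (s : X)

theorem inc_apply [DecidableEq X] (S : Finset X) (w : S → T) :
    inc (R := R) S w = ∑ s : S, Finsupp.single (s : X) (w s) := by
  rw [inc, LinearMap.lsum_apply, LinearMap.sum_apply]
  rfl

theorem inc_res [DecidableEq X] (S : Finset X) (v : X →₀ T) (hv : v.support ⊆ S) :
    inc (R := R) S (res (R := R) S v) = v := by
  rw [inc_apply]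
  show ∑ s : S, Finsupp.single (s : X) (v s) = v
  rw [Finset.sum_coe_sort S (fun x => Finsupp.single x (v x))]
  conv_rhs => rw [← Finsupp.sum_single v]
  rw [Finsupp.sum]
  symm
  refine Finset.sum_subset hv fun x _ hx => ?_
  rw [Finsupp.notMem_support_iff.1 hx, Finsupp.single_zero]

theorem inc_supp [DecidableEq X] (S : Finset X) (w : S → T) :
    (inc (R := R) S w).support ⊆ S := by
  rw [inc_apply]
  refine (Finsupp.support_finsetSum).trans ?_
  refine Finset.biUnion_subset.2 fun s _ => ?_
  exact Finsupp.support_single_subset.trans (Finset.singleton_subset_iff.2 s.2)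

/-- **the main lemma** -/
theorem kill (h : Adm R T) {W : Type} [AddCommGroup W] [Module R W]
    (D : (X →₀ T) →ₗ[R] W) (hD : (LinearMap.range D).FG) {F : Set (X →₀ T)} (hF : F.Finite) :
    ∃ r ∈ FGI R (X →₀ T), (∀ v, D (r v) = D v) ∧ ∀ v ∈ F, r v = v := by
  classical
  have hfin : Module.Finite R (LinearMap.range D) := Module.Finite.iff_fg.2 hD
  obtain ⟨S₁, hS₁⟩ := homs h (fun x : X => D.rangeRestrict ∘ₗ Finsupp.lsingle x)
  choose a ha using hS₁
  have ha' : ∀ x t, ∑ s ∈ S₁, D (Finsupp.single s (a x s t)) = D (Finsupp.single x t) := by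
    intro x t
    have := congrArg Subtype.val (ha x t)
    rw [AddSubmonoidClass.coe_finsetSum] at this
    exact this
  obtain ⟨S, hS⟩ : ∃ S : Finset X, S₁ ⊆ S ∧ ∀ v ∈ F, v.support ⊆ S :=
    ⟨S₁ ∪ hF.toFinset.biUnion fun v => v.support, Finset.subset_union_left, fun v hv =>
      (Finset.subset_biUnion_of_mem (fun v : X →₀ T => v.support)
        (hF.mem_toFinset.2 hv)).trans Finset.subset_union_right⟩
  let r : (X →₀ T) →ₗ[R] (X →₀ T) := Finsupp.lsum ℕ fun x =>
    if x ∈ S then Finsupp.lsingle x else ∑ s ∈ S₁, Finsupp.lsingle s ∘ₗ a x s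
  have hr1 : ∀ x t, x ∈ S → r (Finsupp.single x t) = Finsupp.single x t := by
    intro x t hx
    show Finsupp.lsum ℕ _ (Finsupp.single x t) = _
    rw [Finsupp.lsum_single, if_pos hx]
    rfl
  have hr2 : ∀ x t, x ∉ S → r (Finsupp.single x t) = ∑ s ∈ S₁, Finsupp.single s (a x s t) := by
    intro x t hx
    show Finsupp.lsum ℕ _ (Finsupp.single x t) = _
    rw [Finsupp.lsum_single, if_neg hx, LinearMap.sum_apply]
    rfl
  have hD' : ∀ v, D (r v) = D v := by
    intro v
    have : D ∘ₗ r = D := by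
      apply Finsupp.lhom_ext
      intro x t
      show D (r (Finsupp.single x t)) = D (Finsupp.single x t)
      by_cases hx : x ∈ S
      · rw [hr1 x t hx]
      · rw [hr2 x t hx, map_sum, ha']
    exact LinearMap.congr_fun this v
  have hfix : ∀ v : X →₀ T, v.support ⊆ S → r v = v := by
    intro v hv
    conv_lhs => rw [← Finsupp.sum_single v, Finsupp.sum, map_sum]
    conv_rhs => rw [← Finsupp.sum_single v, Finsupp.sum]
    exact Finset.sum_congr rfl fun x hx => hr1 x _ (hv hx)
  have hsup : ∀ v, (r v).support ⊆ S := by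
    intro v
    induction v using Finsupp.induction_linear with
    | zero => rw [map_zero]; simp
    | add f g hf hg =>
      rw [map_add]
      exact Finsupp.support_add.trans (Finset.union_subset hf hg)
    | single x t =>
      by_cases hx : x ∈ S
      · rw [hr1 x t hx]
        exact Finsupp.support_single_subset.trans (Finset.singleton_subset_iff.2 hx)
      · rw [hr2 x t hx]
        refine (Finsupp.support_finsetSum).trans ?_
        refine Finset.biUnion_subset.2 fun s hs => ?_
        exact Finsupp.support_single_subset.trans (Finset.singleton_subset_iff.2 (hS.1 hs))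
  refine ⟨r, ⟨fun v => hfix _ (hsup v), ?_⟩, hD', fun v hv => hfix v (hS.2 v hv)⟩
  have h1 : LinearMap.range r = LinearMap.range (inc (R := R) (T := T) S) := by
    ext v
    constructor
    · rintro ⟨w, rfl⟩
      exact ⟨res S (r w), inc_res S _ (hsup w)⟩
    · rintro ⟨w, rfl⟩
      exact ⟨inc S w, hfix _ (inc_supp S w)⟩
  have hT : Module.Finite R T := h.2.1
  rw [h1]
  exact Module.Finite.iff_fg.1 inferInstance

theorem frame_fgi (h : Adm R T) : Frame (FGI R (X →₀ T)) where
  ne := ⟨0, fun _ => rfl, by rw [LinearMap.range_zero]; exact Submodule.fg_bot⟩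
  idem p hp := hp.1
  fg p hp := hp.2
  dir p hp q hq := by
    have hN : IsNoetherianRing R := h.1
    obtain ⟨A, hAf, hA⟩ := Submodule.fg_def.1 hp.2
    obtain ⟨B, hBf, hB⟩ := Submodule.fg_def.1 hq.2
    have hfg : (LinearMap.range (LinearMap.prod p q)).FG := by
      refine Submodule.FG.of_le (T := (LinearMap.range p).prod (LinearMap.range q))
        (hp.2.prod hq.2) ?_
      rintro _ ⟨v, rfl⟩
      exact ⟨⟨v, rfl⟩, ⟨v, rfl⟩⟩
    obtain ⟨r, hr, h1, h2⟩ := kill h (LinearMap.prod p q) hfg (hAf.union hBf)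
    have key : ∀ (e : (X →₀ T) →ₗ[R] (X →₀ T)) (A : Set (X →₀ T)),
        Submodule.span R A = LinearMap.range e →
        (∀ v ∈ A, r v = v) → ∀ v, r (e v) = e v := by
      intro e A hA h v
      have h5 : LinearMap.range e ≤ LinearMap.ker (r - LinearMap.id) := by
        rw [← hA, Submodule.span_le]
        intro v hv
        show r v - v = 0
        rw [h v hv, sub_self]
      exact sub_eq_zero.1 (h5 ⟨v, rfl⟩)
    refine ⟨r, hr, fun v => ⟨?_, congrArg Prod.fst (h1 v)⟩, fun v => ⟨?_, congrArg Prod.snd (h1 v)⟩⟩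
    · exact key p A hA (fun v hv => h2 v (Or.inl hv)) v
    · exact key q B hB (fun v hv => h2 v (Or.inr hv)) v
  cover v := by
    obtain ⟨r, hr, -, h⟩ := kill h (0 : (X →₀ T) →ₗ[R] (X →₀ T))
      (by rw [LinearMap.range_zero]; exact Submodule.fg_bot) (Set.finite_singleton v)
    exact ⟨r, hr, h v rfl⟩

/-- automorphisms `x` with finitely generated `(x - 1) V` are carried by idempotents -/
theorem carried (h : Adm R T) (x : (X →₀ T) ≃ₗ[R] (X →₀ T))
    (hx : (LinearMap.range ((x : (X →₀ T) →ₗ[R] (X →₀ T)) - LinearMap.id)).FG) :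
    CarriedBy (FGI R (X →₀ T)) x := by
  obtain ⟨A, hAf, hA⟩ := Submodule.fg_def.1 hx
  obtain ⟨r, hr, h1, h2⟩ := kill h ((x : (X →₀ T) →ₗ[R] (X →₀ T)) - LinearMap.id) hx hAf
  have h3 : ∀ v, x (r v) - r v = x v - v := h1
  have h4 : LinearMap.range ((x : (X →₀ T) →ₗ[R] (X →₀ T)) - LinearMap.id) ≤
      LinearMap.ker (r - LinearMap.id) := by
    rw [← hA, Submodule.span_le]
    intro v hv
    show r v - v = 0
    rw [h2 v hv, sub_self]
  have h5 : ∀ v, r (x v - v) = x v - v := fun v => sub_eq_zero.1 (h4 ⟨v, rfl⟩)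
  refine ⟨r, hr, fun v => ?_, fun v => ?_⟩
  · have e1 := h3 v
    have e2 := h5 v
    rw [map_sub] at e2
    have e3 : x (r v) = x v - v + r v := by rw [← e1]; abel
    rw [e3, ← e2]
    abel
  · have e1 := h3 v
    rw [map_sub]
    have e3 : x v = x (r v) - r v + v := by rw [e1]; abel
    rw [e3]
    abel

theorem supp_fg (L : Submodule R (X →₀ T)) (hL : L.FG) : ∃ S : Finset X, ∀ v ∈ L, v.support ⊆ S := by
  classical
  obtain ⟨A, hA⟩ := hL
  refine ⟨A.biUnion fun v => v.support, fun v hv => ?_⟩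
  rw [← hA] at hv
  induction hv using Submodule.span_induction with
  | mem x hx => exact Finset.subset_biUnion_of_mem (fun v : X →₀ T => v.support) hx
  | zero => simp
  | add x y _ _ hx hy => exact Finsupp.support_add.trans (Finset.union_subset hx hy)
  | smul a x _ hx => exact Finsupp.support_smul.trans hx

theorem car_mem {C : ∀ (G : Type) [Group G], Prop} (hC : ClosedE C)
    (hd : ∀ d : ℕ, C ((Fin d → T) ≃ₗ[R] (Fin d → T))) :
    ∀ p ∈ FGI R (X →₀ T), ∀ q ∈ FGI R (X →₀ T), C ↥(Car (QQ p q)) := by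
  classical
  intro p hp q hq
  obtain ⟨S₁, hS₁⟩ := supp_fg _ hp.2
  obtain ⟨S₂, hS₂⟩ := supp_fg _ hq.2
  obtain ⟨S, hSp, hSq⟩ : ∃ S : Finset X, (∀ v, (p v).support ⊆ S) ∧ ∀ v, (q v).support ⊆ S :=
    ⟨S₁ ∪ S₂, fun v => (hS₁ _ ⟨v, rfl⟩).trans Finset.subset_union_left,
      fun v => (hS₂ _ ⟨v, rfl⟩).trans Finset.subset_union_right⟩
  let e : ((S → T) × (S → T)) ≃ₗ[R] (Fin (Fintype.card (S ⊕ S)) → T) :=
    (LinearEquiv.sumArrowLequivProdArrow S S R T).symm.trans
      (LinearEquiv.funCongrLeft R T (Fintype.equivFin (S ⊕ S)).symm)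
  have hQQ : ∀ x, QQ p q (QQ p q x) = QQ p q x := fun x => Prod.ext (hq.1 _) (hp.1 _)
  refine hC.base.of_injective _ _ (emb (QQ p q)
    ((e : ((S → T) × (S → T)) →ₗ[R] (Fin (Fintype.card (S ⊕ S)) → T)) ∘ₗ
      (LinearMap.prodMap (res S) (res S)) ∘ₗ QQ p q)
    (QQ p q ∘ₗ (LinearMap.prodMap (inc S) (inc S)) ∘ₗ
      (e.symm : (Fin (Fintype.card (S ⊕ S)) → T) →ₗ[R] ((S → T) × (S → T)))) ?_ ?_)
    (emb_injective _ _ _ _ _) (hd (Fintype.card (S ⊕ S)))
  · intro v
    show QQ p q (LinearMap.prodMap (inc (R := R) (T := T) S) (inc (R := R) (T := T) S) (e.symm (e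
      ((LinearMap.prodMap (res (R := R) (T := T) S) (res (R := R) (T := T) S)) (QQ p q v))))) =
        QQ p q v
    rw [LinearEquiv.symm_apply_apply]
    have h1 : LinearMap.prodMap (inc (R := R) (T := T) S) (inc S)
        ((LinearMap.prodMap (res (R := R) (T := T) S) (res (R := R) (T := T) S)) (QQ p q v)) =
          QQ p q v :=
      Prod.ext (inc_res S _ (hSq v.1)) (inc_res S _ (hSp v.2))
    rw [h1, hQQ]
  · intro l
    exact hQQ _

end Run7.h258.SL
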