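import Pool.Agent.Run7.h258.SL.Hered

/-!
# Extensions with finitary linear kernels
-/

set_option autoImplicit false

namespace Run7.h258.SL

open Pool.Agent.Y110.FJ

section ext

variable {R V F : Type} [Ring R] [AddCommGroup V] [Module R V] [AddCommGroup F] [Module R F]

/-- all automorphisms are carried by the identity -/
def toCar : (V ≃ₗ[R] V) →* Car (LinearMap.id : V →ₗ[R] V) where
  toFun x := ⟨x, fun _ => rfl, fun v => by simp⟩
  map_one' := rfl
  map_mul' _ _ := rfl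

/-- the extension by the identity of automorphisms of a direct summand -/
def ext (s : V →ₗ[R] F) (t : F →ₗ[R] V) (h : ∀ v, t (s v) = v) : (V ≃ₗ[R] V) →* (F ≃ₗ[R] F) :=
  (emb LinearMap.id s t h fun _ => rfl).comp toCar

theorem ext_apply (s : V →ₗ[R] F) (t : F →ₗ[R] V) (h : ∀ v, t (s v) = v) (x : V ≃ₗ[R] V) (l : F) :
    ext s t h x l = s (x (t l)) + (l - s (t l)) := rfl

theorem ext_injective (s : V →ₗ[R] F) (t : F →ₗ[R] V) (h : ∀ v, t (s v) = v) :
    Function.Injective (ext s t h) :=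
  (emb_injective LinearMap.id s t h fun _ => rfl).comp fun _ _ hxy => congrArg Subtype.val hxy

theorem ext_fg (s : V →ₗ[R] F) (t : F →ₗ[R] V) (h : ∀ v, t (s v) = v) (x : V ≃ₗ[R] V)
    (hx : (LinearMap.range ((x : V →ₗ[R] V) - LinearMap.id)).FG) :
    (LinearMap.range ((ext s t h x : F →ₗ[R] F) - LinearMap.id)).FG := by
  have : LinearMap.range ((ext s t h x : F →ₗ[R] F) - LinearMap.id) =
      (LinearMap.range ((x : V →ₗ[R] V) - LinearMap.id)).map s := by
    ext l
    constructor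
    · rintro ⟨a, rfl⟩
      refine ⟨x (t a) - t a, ⟨t a, rfl⟩, ?_⟩
      show s (x (t a) - t a) = s (x (t a)) + (a - s (t a)) - a
      rw [map_sub]
      abel
    · rintro ⟨_, ⟨v, rfl⟩, rfl⟩
      refine ⟨s v, ?_⟩
      show s (x (t (s v))) + (s v - s (t (s v))) - s v = s (x v - v)
      rw [h, map_sub]
      abel
  rw [this]
  exact hx.map s

end ext

/-- conjugations are realized, in the case of a frame -/
theorem realized_frame {C : ∀ (G : Type) [Group G], Prop} (hC : ClosedE C) {G : Type} [Group G]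
    (N : Subgroup G) [hN : N.Normal] (g : G) (E : Set G) (hE : E.Finite) (hEN : E ⊆ N)
    {R V : Type} [Ring R] [AddCommGroup V] [Module R V] {PP : Set (V →ₗ[R] V)} (hF : Frame PP)
    (hP : ∀ p ∈ PP, C ((LinearMap.range p × LinearMap.range p) ≃ₗ[R]
      (LinearMap.range p × LinearMap.range p)))
    (j : N →* (V ≃ₗ[R] V)) (γ : V ≃ₗ[R] V)
    (hj : ∀ n : N, (n : G) ∈ Subgroup.closure (E ∪ (fun x => g * x * g⁻¹) '' E) → j n = 1 → n = 1)
    (h1 : ∀ n : N, (n : G) ∈ E → CarriedBy PP (j n) ∧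
      CarriedBy PP (j ⟨g * n * g⁻¹, hN.conj_mem n n.2 g⟩) ∧
      ∀ v, j ⟨g * n * g⁻¹, hN.conj_mem n n.2 g⟩ (γ v) = γ (j n v)) : Realized C g E := by
  have key : ∀ p ∈ PP, C ↥(Car (QQ p p)) := by
    intro p hp
    refine hC.base.of_injective _ _ (emb (QQ p p)
      (LinearMap.prodMap p.rangeRestrict p.rangeRestrict)
      (LinearMap.prodMap (LinearMap.range p).subtype (LinearMap.range p).subtype)
      (fun _ => rfl) ?_) (emb_injective _ _ _ _ _) (hP p hp)
    rintro ⟨⟨_, a, rfl⟩, ⟨_, b, rfl⟩⟩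
    exact Prod.ext (hF.idem p hp a) (hF.idem p hp b)
  refine realized N g E hE hEN hF ?_ j γ hj h1
  intro p hp q hq
  obtain ⟨r, hr, h2, h3⟩ := hF.dir p hp q hq
  refine hC.base.of_injective _ _ (Subgroup.inclusion (car_mono (p := QQ p q) (r := QQ r r) ?_))
    (Subgroup.inclusion_injective _) (key r hr)
  intro v
  exact ⟨Prod.ext (h3 v.1).1 (h2 v.2).1, Prod.ext (h3 v.1).2 (h2 v.2).2⟩

/-- conjugations are realized, in the case of a module over a Noetherian ring -/
theorem realized_adm {C : ∀ (G : Type) [Group G], Prop} (hC : ClosedE C) {G : Type} [Group G]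
    (N : Subgroup G) [hN : N.Normal] (g : G) (E : Set G) (hE : E.Finite) (hEN : E ⊆ N)
    {R T V : Type} [Ring R] [AddCommGroup T] [Module R T] [AddCommGroup V] [Module R V]
    (h : Adm R T) (hV : SummandOf R V T) (hd : ∀ d : ℕ, C ((Fin d → T) ≃ₗ[R] (Fin d → T)))
    (j : N →* (V ≃ₗ[R] V)) (γ : V ≃ₗ[R] V)
    (hj : ∀ n : N, (n : G) ∈ Subgroup.closure (E ∪ (fun x => g * x * g⁻¹) '' E) → j n = 1 → n = 1)
    (h1 : ∀ n : N, (n : G) ∈ E → (LinearMap.range ((j n : V →ₗ[R] V) - LinearMap.id)).FG ∧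
      ∀ v, j ⟨g * n * g⁻¹, hN.conj_mem n n.2 g⟩ (γ v) = γ (j n v)) : Realized C g E := by
  obtain ⟨X, s, t, hst⟩ := hV
  refine realized N g E hE hEN (frame_fgi (X := X) h) (car_mem hC hd) ((ext s t hst).comp j)
    (ext s t hst γ) (fun n hn hn' => hj n hn (ext_injective s t hst (hn'.trans (map_one _).symm)))
    ?_
  intro n hn
  obtain ⟨h2, h3⟩ := h1 n hn
  refine ⟨carried h _ (ext_fg s t hst _ h2), carried h _ (ext_fg s t hst _ ?_), fun v => ?_⟩
  · have h4 : LinearMap.range ((j ⟨g * n * g⁻¹, hN.conj_mem n n.2 g⟩ : V →ₗ[R] V) -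
        LinearMap.id) = (LinearMap.range ((j n : V →ₗ[R] V) - LinearMap.id)).map
          (γ : V →ₗ[R] V) := by
      ext l
      constructor
      · rintro ⟨a, rfl⟩
        obtain ⟨b, rfl⟩ := γ.surjective a
        refine ⟨j n b - b, ⟨b, rfl⟩, ?_⟩
        show γ (j n b - b) = j _ (γ b) - γ b
        rw [h3, map_sub]
      · rintro ⟨_, ⟨b, rfl⟩, rfl⟩
        refine ⟨γ b, ?_⟩
        show j _ (γ b) - γ b = γ (j n b - b)
        rw [h3, map_sub]
    rw [h4]
    exact h2.map _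
  · have h5 : j ⟨g * n * g⁻¹, hN.conj_mem n n.2 g⟩ * γ = γ * j n := LinearEquiv.ext h3
    show ((ext s t hst (j _)) * (ext s t hst γ)) v = ((ext s t hst γ) * (ext s t hst (j n))) v
    rw [← map_mul, ← map_mul, h5]

/-- the criterion for the conjugations by `1` and by elements of infinite order modulo `N` -/
theorem crit1 (C : ∀ (G : Type) [Group G], Prop) (hC : ClosedE C) (G : Type) [Group G]
    (N : Subgroup G) [N.Normal] (hQ : C (G ⧸ N))
    (hR : ∀ g : G, (g = 1 ∨ ∀ n : ℕ, 0 < n → g ^ n ∉ N) →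
      ∀ E : Set G, E.Finite → E ⊆ N → Realized C g E) : C G := by
  have hCN : C N := by
    have key : ∀ E : Set G, E.Finite → E ⊆ N → C ↥(Subgroup.closure E) := by
      intro E hE hEN
      obtain ⟨P, _, f, p, hCP, hf, -⟩ := hR 1 (Or.inl rfl) E hE hEN
      refine hC.base.of_injective _ P (f.comp (Subgroup.inclusion
        (Subgroup.closure_mono Set.subset_union_left))) ?_ hCP
      exact hf.comp (Subgroup.inclusion_injective _)
    refine Pool.Agent.Y430.SS.of_directed hC.base N (Finset N) (fun i j => ?_)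
      (fun s => Subgroup.closure (s : Set N))
      (fun s t h => Subgroup.closure_mono (by exact_mod_cast h))
      (fun g => ⟨{g}, Subgroup.subset_closure (by simp)⟩) (fun s => ?_)
    · classical
      exact ⟨i ∪ j, Finset.subset_union_left, Finset.subset_union_right⟩
    · have h1 := key ((N.subtype) '' (s : Set N)) (s.finite_toSet.image _) (by
        rintro _ ⟨x, -, rfl⟩
        exact x.2)
      rw [← MonoidHom.map_closure] at h1
      exact hC.base.of_injective _ _ ((Subgroup.closure (s : Set N)).equivMapOfInjective N.subtype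
        N.subtype_injective).toMonoidHom (MulEquiv.injective _) h1
  exact Pool.Agent.Y529.FJ.t_ext C hC G N hCN hQ fun g hg =>
    Pool.Agent.R779.FJ.t_col (Pool.Agent.Y961.FJ.t_perm Pool.Agent.Y529.FJ.t_ext) C hC G N g hg
      (hR g (Or.inr hg))

theorem main (C : ∀ (G : Type) [Group G], Prop) (hC : ClosedE C) (G : Type) [Group G]
    (N : Subgroup G) [hN : N.Normal] (hQ : C (G ⧸ N))
    (h : ∀ g : G, (g = 1 ∨ ∀ n : ℕ, 0 < n → g ^ n ∉ N) → ∀ E : Set G, E.Finite → E ⊆ N →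
      LinearConj C N g E) : C G := by
  refine crit1 C hC G N hQ fun g hg E hE hEN => ?_
  obtain ⟨R, V, iR, iV, iM, j, γ, ⟨h1, h2⟩, ⟨T, iT, iTM, h3, h4, hd, h5⟩ | ⟨PP, h3, h4, h5⟩⟩ :=
    h g hg E hE hEN
  · refine realized_adm hC N g E hE hEN h3 h4 hd j γ h1 fun n hn =>
      ⟨h5 _ ⟨n, Or.inl hn, rfl⟩, fun v => ?_⟩
    rw [h2 n ⟨g * n * g⁻¹, hN.conj_mem n n.2 g⟩ hn rfl]
    show (γ * j n * γ⁻¹ * γ) v = (γ * j n) v
    rw [inv_mul_cancel_right]
  · refine realized_frame hC N g E hE hEN h3 h4 j γ h1 fun n hn =>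
      ⟨h5 _ ⟨n, Or.inl hn, rfl⟩, h5 _ ⟨_, Or.inr ⟨n, hn, rfl⟩, rfl⟩, fun v => ?_⟩
    rw [h2 n ⟨g * n * g⁻¹, hN.conj_mem n n.2 g⟩ hn rfl]
    show (γ * j n * γ⁻¹ * γ) v = (γ * j n) v
    rw [inv_mul_cancel_right]

end Run7.h258.SL
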